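import Pool.Agent.Helper30.TR.Spec

/-!
# TR, part TF: every triangle of chords inside the polygon contains a three-face.
-/

set_option autoImplicit false

namespace Pool.Agent.Helper57.TR.TF
open MeasureTheory Set Pool.Agent.Helper30.TriFace Pool.Agent.Helper30.TR
open scoped Classical

theorem face_nonempty {n : ℕ} {D : ConvexDrawing n} {F : Set (ℝ × ℝ)} (h : IsThreeFace D F) :
    F.Nonempty := by
  obtain ⟨⟨x, hx, rfl⟩, -⟩ := h
  exact ⟨x, mem_connectedComponentIn hx⟩

theorem det3_eq (a b y : ℝ × ℝ) : det3 a b y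
    = -(b.2 - a.2) * y.1 + (b.1 - a.1) * y.2 + ((b.2 - a.2) * a.1 - (b.1 - a.1) * a.2) := by
  unfold det3; ring

theorem main (hMT : S_MT) (hFC : S_FC) : S_TF := by
  intro n D e g h P1 P2 P3 he hg hh g1 h1 e2 h2 e3 g3 hd m1 m2 m3
  let E : Finset (Fin n × Fin n) := Finset.univ.filter fun k => k.1 ≠ k.2
  let A : Fin n × Fin n → ℝ := fun k => -((D.pt k.2).2 - (D.pt k.1).2)
  let B : Fin n × Fin n → ℝ := fun k => (D.pt k.2).1 - (D.pt k.1).1
  let C : Fin n × Fin n → ℝ := fun k => ((D.pt k.2).2 - (D.pt k.1).2) * (D.pt k.1).1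
    - ((D.pt k.2).1 - (D.pt k.1).1) * (D.pt k.1).2
  have hf : ∀ (k : Fin n × Fin n) (y : ℝ × ℝ), det3 (D.pt k.1) (D.pt k.2) y
      = A k * y.1 + B k * y.2 + C k := fun k y => det3_eq _ _ _
  have hAB : ∀ k ∈ E, A k ≠ 0 ∨ B k ≠ 0 := by
    intro k hk
    by_contra hcon
    push Not at hcon
    have hk' : k.1 ≠ k.2 := (Finset.mem_filter.1 hk).2
    apply hk'
    apply D.convexPosition.injective
    apply Prod.ext
    · have := hcon.2
      simp only [B] at this
      linarith
    · have := hcon.1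
      simp only [A] at this
      linarith
  have hmem : ∀ k : Fin n × Fin n, k.1 ≠ k.2 → k ∈ E := fun k hk =>
    Finset.mem_filter.2 ⟨Finset.mem_univ _, hk⟩
  obtain ⟨e', g', h', Q1, Q2, Q3, ⟨k1, k2, k3, q1, q2, q3, q4, q5, q6, q7⟩, c1, c2, c3, hint⟩ :=
    hMT E A B C hAB e g h P1 P2 P3 ⟨hmem e he, hmem g hg, hmem h hh, by rw [← hf]; exact g1,
      by rw [← hf]; exact h1, by rw [← hf]; exact e2, by rw [← hf]; exact h2,
      by rw [← hf]; exact e3, by rw [← hf]; exact g3, hd⟩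
  have hsub : convexHull ℝ {P1, P2, P3} ⊆ convexHull ℝ (range D.pt) := by
    refine convexHull_min ?_ (convex_convexHull ℝ _)
    rintro y (rfl | rfl | rfl)
    · exact m1
    · exact m2
    · exact m3
  have hsub' : convexHull ℝ {Q1, Q2, Q3} ⊆ convexHull ℝ {P1, P2, P3} := by
    refine convexHull_min ?_ (convex_convexHull ℝ _)
    rintro y (rfl | rfl | rfl)
    · exact c1
    · exact c2
    · exact c3
  have key := hFC n D e' g' h' Q1 Q2 Q3 (Finset.mem_filter.1 k1).2 (Finset.mem_filter.1 k2).2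
    (Finset.mem_filter.1 k3).2 (by rw [hf]; exact q1) (by rw [hf]; exact q2)
    (by rw [hf]; exact q3) (by rw [hf]; exact q4) (by rw [hf]; exact q5) (by rw [hf]; exact q6)
    q7 (hsub c1) (hsub c2) (hsub c3) (fun k hk z hz => by rw [hf]; exact hint k (hmem k hk) z hz)
  exact ⟨_, key, face_nonempty key, interior_subset.trans hsub'⟩

end Pool.Agent.Helper57.TR.TF
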