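import Pool.Agent.Helper30.TR.Spec

/-!
# TR, part XF: near to a good point there is a three-face.
-/

set_option autoImplicit false

namespace Pool.Agent.Helper57.TR.XF
open MeasureTheory Set Pool.Agent.Helper30.TriFace Pool.Agent.Helper30.TR
open scoped Classical

theorem main (hCH : S_CH) (hLN : S_LN) (hTF : S_TF) (hHD : S_HD) : S_XF := by
  refine ⟨1000, ?_⟩
  intro n hn D hD x hx
  obtain ⟨hxD, ⟨sa, ma, a1, a2, a3, a4, a5, a6⟩, ⟨sb, mb, b1, b2, b3, b4, b5, b6⟩,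
    ⟨sc, mc, c1, c2, c3, c4, c5, c6⟩⟩ := hx
  have hnR : (1000 : ℝ) ≤ n := by exact_mod_cast hn
  have hn0 : (0 : ℝ) < n := by linarith
  set σ : ℝ := 2100 / (n : ℝ) ^ 2 with hσ
  have hσ0 : 0 < σ := by positivity
  have hσ1 : 30 * σ ≤ 1 / 10 := by
    rw [hσ, ← mul_div_assoc, div_le_div_iff₀ (by positivity) (by norm_num)]
    nlinarith
  have hpi := Real.pi_pos
  -- the angles
  have e1 : 12 * (n / 12) ≤ n := Nat.mul_div_le n 12
  have e2 : 3 * (n / 3) ≤ n := Nat.mul_div_le n 3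
  have e3 : n < 3 * (n / 3) + 3 := by omega
  have ha1 : (0 : ℝ) ≤ sa := by
    have : (0 : ℤ) ≤ sa := by omega
    exact_mod_cast this
  have ha2 : 12 * (sa : ℝ) ≤ n := by
    have : 12 * sa ≤ (n : ℤ) := by omega
    exact_mod_cast this
  have hb1 : (n : ℝ) ≤ 3 * sb := by
    have : (n : ℤ) ≤ 3 * sb := by omega
    exact_mod_cast this
  have hb2 : 12 * (sb : ℝ) ≤ 5 * n := by
    have : 12 * sb ≤ 5 * (n : ℤ) := by omega
    exact_mod_cast this
  have hc1 : 2 * (n : ℝ) - 1 ≤ 3 * sc := by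
    have : 2 * (n : ℤ) - 1 ≤ 3 * sc := by omega
    exact_mod_cast this
  have hc2 : 4 * (sc : ℝ) ≤ 3 * n := by
    have : 4 * sc ≤ 3 * (n : ℤ) := by omega
    exact_mod_cast this
  obtain ⟨P1, P2, P3, p1, p2, p3, p4, p5, p6, hd, hnear⟩ := hLN σ (th n sa) (th n sb) (th n sc)
    (Real.cos (Real.pi * ma / n)) (Real.cos (Real.pi * mb / n)) (Real.cos (Real.pi * mc / n)) x hσ0
    (by unfold th; positivity)
    (by unfold th; rw [div_le_div_iff₀ hn0 (by norm_num)]; nlinarith)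
    (by unfold th; rw [div_le_div_iff₀ (by norm_num) hn0]; nlinarith)
    (by unfold th; rw [div_le_div_iff₀ hn0 (by norm_num)]; nlinarith)
    (by unfold th; rw [div_le_div_iff₀ (by norm_num) hn0]; nlinarith)
    (by unfold th; rw [div_le_div_iff₀ hn0 (by norm_num)]; nlinarith)
    a6 b6 c6
  have hn3 : 3 ≤ n := by omega
  obtain ⟨ia, ja, hija, ca, hca, ga⟩ := hCH n sa ma hn3 a3 a4 a5
  obtain ⟨ib, jb, hijb, cb, hcb, gb⟩ := hCH n sb mb hn3 b3 b4 b5
  obtain ⟨ic, jc, hijc, cc, hcc, gc⟩ := hCH n sc mc hn3 c3 c4 c5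
  have hx1 : |x.1| ≤ 1 / 10 ∧ |x.2| ≤ 1 / 10 := by
    have : x.1 ^ 2 + x.2 ^ 2 ≤ (1 / 10 : ℝ) ^ 2 := hxD
    constructor
    · apply abs_le_of_sq_le_sq _ (by norm_num)
      nlinarith [sq_nonneg x.2]
    · apply abs_le_of_sq_le_sq _ (by norm_num)
      nlinarith [sq_nonneg x.1]
  have hin : ∀ P ∈ ({P1, P2, P3} : Set (ℝ × ℝ)), P ∈ convexHull ℝ (range D.pt) := by
    intro P hP
    rw [hD]
    apply hHD n hn3
    obtain ⟨h1, h2⟩ := hnear P hP
    have h3 : |P.1| ≤ 2 / 10 := by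
      have := abs_add_le (P.1 - x.1) x.1
      rw [sub_add_cancel] at this
      linarith [hx1.1]
    have h4 : |P.2| ≤ 2 / 10 := by
      have := abs_add_le (P.2 - x.2) x.2
      rw [sub_add_cancel] at this
      linarith [hx1.2]
    change P.1 ^ 2 + P.2 ^ 2 ≤ (1 / 2 : ℝ) ^ 2
    have h5 := sq_abs P.1
    have h6 := sq_abs P.2
    have h7 : |P.1| ^ 2 ≤ (2 / 10) ^ 2 := pow_le_pow_left₀ (abs_nonneg _) h3 2
    have h8 : |P.2| ^ 2 ≤ (2 / 10) ^ 2 := pow_le_pow_left₀ (abs_nonneg _) h4 2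
    rw [← h5, ← h6]
    linarith
  obtain ⟨F, hF, hFne, hFsub⟩ := hTF n D (ia, ja) (ib, jb) (ic, jc) P1 P2 P3 hija hijb hijc
    (by rw [hD, gb, p1, sub_self, mul_zero]) (by rw [hD, gc, p2, sub_self, mul_zero])
    (by rw [hD, ga, p3, sub_self, mul_zero]) (by rw [hD, gc, p4, sub_self, mul_zero])
    (by rw [hD, ga, p5, sub_self, mul_zero]) (by rw [hD, gb, p6, sub_self, mul_zero])
    hd (hin P1 (by simp)) (hin P2 (by simp)) (hin P3 (by simp))
  refine ⟨F, hF, hFne, ?_⟩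
  have hball : convexHull ℝ {P1, P2, P3} ⊆ Metric.closedBall x (30 * σ) := by
    refine convexHull_min (fun P hP => ?_) (convex_closedBall _ _)
    rw [Metric.mem_closedBall, Prod.dist_eq, Real.dist_eq, Real.dist_eq]
    exact max_le (hnear P hP).1 (hnear P hP).2
  intro y hy
  have := hball (hFsub hy)
  rw [Metric.mem_closedBall, Prod.dist_eq, Real.dist_eq, Real.dist_eq] at this
  exact ⟨(le_max_left _ _).trans this, (le_max_right _ _).trans this⟩

end Pool.Agent.Helper57.TR.XF
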